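import Pool.Agent.Lib.MP_3eaa21_lc.Final

/-!
# Degrees of `Π⁰₁` classes with finite non-Boolean quotient lattices (MP_3eaa21_lc)

Full answer to Q1: `D` is exactly the set of high c.e. degrees.

* `D ⊆` high c.e. degrees: if `Q` has no complement in `L(P)*` then the minimal strings outside a
  tree for `Q` which are extendible in `P` form an infinite co-c.e. set `I`; a long descending chain
  of subclasses of `P` shows that, for every computable partition of `ω` into intervals, almost all
  intervals contain at most `|L(P)*|` elements of `I`, so `I` computes a dominant function.
* high c.e. degrees `⊆ D`: by Martin's theorem a high c.e. degree contains a maximal set `M`; from a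
  decidable minimal class `Q` (finite injury) with limit point `x` and points `y_i → x` one gets
  `P = Q ∪ {y_i : i ∉ M}` with `L(P)*` a chain of three elements and `Ext(P) ≡_T M`.

Everything (including Martin's theorems on high degrees, dominant functions and maximal sets) is
proved in the helper files.
-/

namespace Pool.Agent.Results.MP_3eaa21_lc.HighDegrees

open Pool.Agent.Lib.MP_3eaa21_lc

/-- **`D` is exactly the set of high c.e. degrees**: a Turing degree `d` is the degree of `Ext(P)`
for some `Π⁰₁` class `P` such that `L(P)*` is finite and not a Boolean algebra if and only if `d`
contains a c.e. set `C` with `C' ≡_T ∅''`. -/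
theorem result : D = {d | ∃ C : Set ℕ, REPred (· ∈ C) ∧ deg C = d ∧ IsHigh C} := D_eq_high

end Pool.Agent.Results.MP_3eaa21_lc.HighDegrees
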